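import Pool.Agent.H707.NV.Wdw

/-! Asymptotic bounds for the first two moments of the window counts. -/

open Filter Topology Set MeasureTheory

namespace Pool.Agent.H707.NV

open SG (ord NZ)
open Pool.Agent.TH873.EW (ct mom XV)
open Pool.Agent.Y747 (Bx mem_Bx)
open Pool.Agent.H707.SM (pair_le XV_large)

/-- the local bound -/
lemma cn_log : ∃ C : ℝ, 0 < C ∧ ∀ V : ℝ, 3 ≤ V → ∀ h : ℝ, h ≤ 1 → ∀ t ∈ Icc V (2 * V),
    cn h t ≤ C * Real.log (2 * V) := by
  obtain ⟨C, hC, hz⟩ := H370.zcount H370.good_zeta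
  refine ⟨C, hC, fun V hV h hh t ht => ?_⟩
  have h1 := SG.NZ_le_add t (t + 1) (by linarith [ht.1])
  have h2 : H370.NN riemannZeta t (t + 1) ≤ H370.NN riemannZeta (t - 1) (t + 1) :=
    H370.NN_mono H370.good_zeta (by linarith [ht.1]) (by linarith) le_rfl
  have h3 := hz t (by linarith [ht.1])
  have h4 : (NZ (t + 1) : ℝ) ≤ NZ t + H370.NN riemannZeta (t - 1) (t + 1) := by
    exact_mod_cast h1.trans (Nat.add_le_add_left h2 _)
  have h5 : (NZ (t + h) : ℝ) ≤ NZ (t + 1) := by exact_mod_cast SG.NZ_mono (by linarith)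
  have h6 : Real.log t ≤ Real.log (2 * V) := Real.log_le_log (by linarith [ht.1]) ht.2
  have h7 : C * Real.log t ≤ C * Real.log (2 * V) := mul_le_mul_of_nonneg_left h6 hC.le
  unfold cn
  linarith

/-- powers of the logarithm are negligible -/
lemma log_small (C : ℝ) {e : ℝ} (he : 0 < e) (j : ℕ) : ∀ᶠ V : ℝ in atTop,
    3 * (C * Real.log (2 * V)) ^ j ≤ e * V := by
  have h1 : (fun V : ℝ => Real.log (2 * V) ^ j) =o[atTop] fun V => 2 * V := by
    have h2 := Real.isLittleO_pow_log_id_atTop (n := j)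
    exact h2.comp_tendsto (tendsto_id.const_mul_atTop (by norm_num : (0 : ℝ) < 2))
  have h3 := h1.bound (c := e / (2 * (3 * |C| ^ j + 1))) (by positivity)
  filter_upwards [h3, eventually_ge_atTop 1] with V h4 h5
  have h6 : 0 ≤ Real.log (2 * V) := Real.log_nonneg (by linarith)
  rw [Real.norm_of_nonneg (pow_nonneg h6 j), Real.norm_of_nonneg (by linarith)] at h4
  have h7 : 3 * (C * Real.log (2 * V)) ^ j ≤ 3 * |C| ^ j * Real.log (2 * V) ^ j := by
    rw [mul_pow, mul_assoc]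
    apply mul_le_mul_of_nonneg_left _ (by norm_num)
    apply mul_le_mul_of_nonneg_right _ (pow_nonneg h6 j)
    rw [← abs_pow]
    exact le_abs_self _
  have h8 : 3 * |C| ^ j * Real.log (2 * V) ^ j ≤ (3 * |C| ^ j + 1) * Real.log (2 * V) ^ j :=
    mul_le_mul_of_nonneg_right (by linarith) (pow_nonneg h6 j)
  have h9 : (3 * |C| ^ j + 1) * Real.log (2 * V) ^ j ≤
      (3 * |C| ^ j + 1) * (e / (2 * (3 * |C| ^ j + 1)) * (2 * V)) :=
    mul_le_mul_of_nonneg_left h4 (by positivity)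
  have h10 : (3 * |C| ^ j + 1) * (e / (2 * (3 * |C| ^ j + 1)) * (2 * V)) = e * V := by
    have : (3 * |C| ^ j + 1) ≠ 0 := by positivity
    field_simp
  linarith

/-- the window length -/
noncomputable def hl (x V : ℝ) : ℝ := 2 * Real.pi * x / Real.log V

lemma hl_small (x : ℝ) (hx : 0 < x) : ∀ᶠ V : ℝ in atTop, 0 ≤ hl x V ∧ hl x V ≤ 1 := by
  have hpi := Real.pi_pos
  filter_upwards [Real.tendsto_log_atTop.eventually_ge_atTop (2 * Real.pi * x),
    eventually_gt_atTop 1] with V h1 h2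
  have h3 : 0 < Real.log V := Real.log_pos h2
  unfold hl
  exact ⟨by positivity, by rw [div_le_one h3]; exact h1⟩

lemma hl_XV {x V : ℝ} (hV : 1 < V) : hl x V * XV V = x * (V - 2) := by
  unfold hl Pool.Agent.TH873.EW.XV
  have h3 : Real.log V ≠ 0 := (Real.log_pos hV).ne'
  have := Real.pi_ne_zero
  field_simp

/-- **the first moment** -/
theorem first (hRH : RiemannHypothesis) {x : ℝ} (hx : 0 < x) {ε : ℝ} (hε : 0 < ε) :
    ∀ᶠ V : ℝ in atTop, |(∫ t in V..(2 * V), cn (hl x V) t) - x * V| ≤ ε * V := by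
  obtain ⟨V0, hV0, hb⟩ := Pool.Agent.Y747.blk_pair hRH (gm_cd 1 0) (gm_one 1 0) (μ := 1 / 2)
    (ε := ε / (2 * x)) (by norm_num) (by norm_num) (by positivity)
  obtain ⟨C, hC, hloc⟩ := cn_log
  filter_upwards [eventually_ge_atTop V0, hl_small x hx, log_small C (half_pos hε) 1,
    eventually_ge_atTop (4 * x / ε)] with V c1 c2 c3 c4
  have hV10 : 10 ≤ V := hV0.trans c1
  obtain ⟨b1, -⟩ := hb V c1
  have hX := hl_XV (x := x) (V := V) (by linarith)
  set h := hl x V with hh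
  set X := XV V with hXdef
  have q1 := (abs_le.1 b1).1
  have q2 := (abs_le.1 b1).2
  have i1 : Integrable fun t => MM V h t ^ 1 := by simpa using MM_int V h
  have l := low (by linarith) c2.1 c2.2 le_rfl i1
  have u := upp (K := C * Real.log (2 * V)) (by linarith) c2.1 c2.2 i1
    (hloc V (by linarith) h c2.2)
  simp only [pow_one] at l u c3
  rw [int_MM c2.1] at l u
  have e1 : h * (Bx V).card ≤ (x + ε / 2) * (V - 2) := by
    have : h * (Bx V).card ≤ h * (X + ε / (2 * x) * X) :=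
      mul_le_mul_of_nonneg_left (by linarith) c2.1
    have e : h * (X + ε / (2 * x) * X) = (1 + ε / (2 * x)) * (h * X) := by ring
    rw [e, hX] at this
    have e' : (1 + ε / (2 * x)) * (x * (V - 2)) = (x + ε / 2) * (V - 2) := by
      field_simp
    linarith
  have e2 : (x - ε / 2) * (V - 2) ≤ h * (Bx V).card := by
    have : h * (X - ε / (2 * x) * X) ≤ h * (Bx V).card :=
      mul_le_mul_of_nonneg_left (by linarith) c2.1
    have e : h * (X - ε / (2 * x) * X) = (1 - ε / (2 * x)) * (h * X) := by ring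
    rw [e, hX] at this
    have e' : (1 - ε / (2 * x)) * (x * (V - 2)) = (x - ε / 2) * (V - 2) := by
      field_simp
    linarith
  have c4' : 4 * x ≤ ε * V := by
    rw [div_le_iff₀ hε] at c4
    linarith
  rw [abs_le]
  constructor
  · have : (x - ε / 2) * (V - 2) = x * V - 2 * x - ε / 2 * V + ε := by ring
    linarith
  · have : (x + ε / 2) * (V - 2) = x * V - 2 * x + ε / 2 * V - ε := by ring
    linarith

lemma choose_mu {g : ℝ → ℝ} {e : ℝ} (he : 0 < e) (he1 : e ≤ 1 / 4) : ∃ μ : ℝ, 0 < μ ∧ μ < 1 ∧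
    1 - e < μ ∧ g 0 / μ + 2 * μ * (∫ t in (0 : ℝ)..1, t * g t) < mom g + e := by
  set I := ∫ t in (0 : ℝ)..1, t * g t with hI
  have hmomI : mom g = g 0 + 2 * I := rfl
  have hc : ContinuousAt (fun μ : ℝ => g 0 / μ + 2 * μ * I) 1 := by
    have : ContinuousAt (fun μ : ℝ => g 0 / μ) 1 :=
      continuousAt_const.div continuousAt_id one_ne_zero
    exact this.add (by fun_prop)
  have hev : ∀ᶠ μ in 𝓝[<] (1 : ℝ), g 0 / μ + 2 * μ * I < mom g + e := by
    apply nhdsWithin_le_nhds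
    apply hc.eventually_lt continuousAt_const
    simp only [div_one, mul_one]
    linarith
  have hev2 : ∀ᶠ μ in 𝓝[<] (1 : ℝ), 1 - e < μ := by
    apply nhdsWithin_le_nhds
    apply lt_mem_nhds
    linarith
  have hlt : ∀ᶠ s in 𝓝[<] (1 : ℝ), s < 1 := self_mem_nhdsWithin
  obtain ⟨μ, ⟨hμ1, hμ2⟩, hμ3⟩ := ((hev.and hev2).and hlt).exists
  exact ⟨μ, by linarith, hμ3, hμ2, hμ1⟩

/-- **the second moment, upper bound** -/
theorem second_upper (hRH : RiemannHypothesis) {g : ℝ → ℝ} (hg : ContDiff ℝ 1 g) (h1 : g 1 = 0)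
    {x : ℝ} (hx : 0 < x) (hmaj : ∀ u, max 0 (x - |u|) ≤ ct g u) {ε : ℝ} (hε : 0 < ε) :
    ∀ᶠ V : ℝ in atTop, ∫ t in V..(2 * V), cn (hl x V) t ^ 2 ≤ (mom g + ε) * V := by
  have hpi := Real.pi_gt_three
  set G : ℝ := mom g with hG
  have habs := abs_nonneg G
  set e : ℝ := min (1 / 4) (ε / (2 * (4 + 3 * |G|))) with he
  have he0 : 0 < e := lt_min (by norm_num) (by positivity)
  have he1 : e ≤ 1 / 4 := min_le_left _ _
  have heG : e * (4 + 3 * |G|) ≤ ε / 2 := by
    have h2 : e ≤ ε / (2 * (4 + 3 * |G|)) := min_le_right _ _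
    rw [le_div_iff₀ (by positivity)] at h2
    linarith
  obtain ⟨μ, hμ0, hμ1, hμe, hμG⟩ := choose_mu (g := g) he0 he1
  obtain ⟨V1, hV1, hp⟩ := Pool.Agent.Y747.blk_pair hRH hg h1 hμ0 hμ1 he0
  obtain ⟨C, hC, hloc⟩ := cn_log
  have hlim : Tendsto (fun V : ℝ => μ * Real.log V / (2 * Real.pi)) atTop atTop :=
    (Real.tendsto_log_atTop.const_mul_atTop hμ0).atTop_div_const (by positivity)
  filter_upwards [eventually_ge_atTop V1, hl_small (x / μ) (by positivity), hl_small x hx,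
    log_small C (half_pos hε) 2, hlim.eventually_ge_atTop (max 1 (x / e))] with V c1 c2 c5 c3 c4
  have hV10 : 10 ≤ V := hV1.trans c1
  obtain ⟨p1, p2⟩ := hp V c1
  have hlogV : 0 < Real.log V := Real.log_pos (by linarith)
  set X := XV V with hX
  set κ : ℝ := μ * Real.log V / (2 * Real.pi) with hκ
  set h' := hl (x / μ) V with hh'
  have hκ1 : 1 ≤ κ := (le_max_left _ _).trans c4
  have hκe : x ≤ e * κ := by
    have := (le_max_right _ _).trans c4
    rw [div_le_iff₀ he0] at this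
    linarith
  have hκh : κ * h' = x := by
    rw [hκ, hh']
    unfold hl
    field_simp
  have hX0 : 0 < X := by
    rw [hX]
    unfold Pool.Agent.TH873.EW.XV
    apply div_pos (mul_pos (by linarith) hlogV) (by positivity)
  have hXκ : μ * X = κ * (V - 2) := by
    rw [hX, hκ]
    unfold Pool.Agent.TH873.EW.XV
    ring
  have hhle : hl x V ≤ h' := by
    rw [hh']
    unfold hl
    apply div_le_div_of_nonneg_right _ hlogV.le
    apply mul_le_mul_of_nonneg_left _ (by positivity)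
    rw [le_div_iff₀ hμ0]
    nlinarith
  -- monotonicity
  have hmono : ∫ t in V..(2 * V), cn (hl x V) t ^ 2 ≤ ∫ t in V..(2 * V), cn h' t ^ 2 := by
    apply intervalIntegral.integral_mono_on (by linarith) (cn_pow_ii c5.1 2 (by linarith))
      (cn_pow_ii c2.1 2 (by linarith))
    intro t _
    exact pow_le_pow_left₀ (cn_nonneg c5.1 t) (cn_mono hhle t) 2
  have u := upp (K := C * Real.log (2 * V)) (by linarith) c2.1 c2.2 (MM_sq_int V h')
    (hloc V (by linarith) h' c2.2)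
  rw [int_MM_sq] at u
  set S := ∑ n ∈ Bx V, ∑ k ∈ Bx V, max 0 (h' - |ord n - ord k|) with hS
  set P := ∑ n ∈ Bx V, ∑ m ∈ Bx V, Real.exp (-(ord n - ord m) ^ 2 / 4) *
        ct g (κ * (ord n - ord m)) with hP
  have hpair : κ * S ≤ (1 + e) * P := by
    rw [hS, hP, Finset.mul_sum, Finset.mul_sum]
    apply Finset.sum_le_sum
    intro n _
    rw [Finset.mul_sum, Finset.mul_sum]
    apply Finset.sum_le_sum
    intro k _
    have e1 : κ * max 0 (h' - |ord n - ord k|) = max 0 (x - |κ * (ord n - ord k)|) := by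
      rw [mul_max_of_nonneg _ _ (by linarith), mul_zero, mul_sub, hκh, abs_mul,
        abs_of_pos (by linarith : 0 < κ)]
    rw [e1]
    exact pair_le (by linarith) hκe he0 (by linarith) hmaj _
  have q3 := (abs_le.1 p2).2
  have hPle : P ≤ (G + 2 * e) * X := by
    have h6 : X * (g 0 / μ + 2 * μ * ∫ t in (0 : ℝ)..1, t * g t) ≤ X * (G + e) :=
      mul_le_mul_of_nonneg_left hμG.le hX0.le
    have h7 : (G + 2 * e) * X = X * (G + e) + e * X := by ring
    rw [h7]
    linarith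
  have hP0 : 0 ≤ P := by
    rw [hP]
    apply Finset.sum_nonneg
    intro n _
    apply Finset.sum_nonneg
    intro m _
    exact mul_nonneg (Real.exp_pos _).le ((le_max_left _ _).trans (hmaj _))
  have hG0 : 0 ≤ G + 2 * e := by
    by_contra h0
    rw [not_le] at h0
    have := mul_neg_of_neg_of_pos h0 hX0
    linarith
  -- arithmetic
  have h8 : κ * (μ * S) ≤ κ * ((1 + e) * (G + 2 * e) * (V - 2)) := by
    have h9 : (1 + e) * P ≤ (1 + e) * ((G + 2 * e) * X) :=
      mul_le_mul_of_nonneg_left hPle (by linarith)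
    have h10 : μ * (κ * S) ≤ μ * ((1 + e) * ((G + 2 * e) * X)) :=
      mul_le_mul_of_nonneg_left (hpair.trans h9) hμ0.le
    have h11 : μ * ((1 + e) * ((G + 2 * e) * X)) = (1 + e) * (G + 2 * e) * (μ * X) := by ring
    rw [h11, hXκ] at h10
    linarith
  have h12 : μ * S ≤ (1 + e) * (G + 2 * e) * (V - 2) := le_of_mul_le_mul_left h8 (by linarith)
  have h13 : (1 + e) * (G + 2 * e) ≤ μ * (G + ε / 2) := by
    have h14 : (1 + e) ≤ μ * (1 + 3 * e) := by
      have : (1 - e) * (1 + 3 * e) ≤ μ * (1 + 3 * e) :=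
        mul_le_mul_of_nonneg_right hμe.le (by linarith)
      nlinarith
    have h15 : (1 + e) * (G + 2 * e) ≤ μ * (1 + 3 * e) * (G + 2 * e) :=
      mul_le_mul_of_nonneg_right h14 hG0
    have h16 : (1 + 3 * e) * (G + 2 * e) ≤ G + ε / 2 := by
      have h17 : e * G ≤ e * |G| := mul_le_mul_of_nonneg_left (le_abs_self G) he0.le
      nlinarith
    have h18 : μ * ((1 + 3 * e) * (G + 2 * e)) ≤ μ * (G + ε / 2) :=
      mul_le_mul_of_nonneg_left h16 hμ0.le
    linarith
  have h19 : μ * S ≤ μ * ((G + ε / 2) * V) := by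
    have h20 : (1 + e) * (G + 2 * e) * (V - 2) ≤ (1 + e) * (G + 2 * e) * V :=
      mul_le_mul_of_nonneg_left (by linarith) (mul_nonneg (by linarith) hG0)
    have h21 : (1 + e) * (G + 2 * e) * V ≤ μ * (G + ε / 2) * V :=
      mul_le_mul_of_nonneg_right h13 (by linarith)
    linarith
  have h22 : S ≤ (G + ε / 2) * V := le_of_mul_le_mul_left h19 hμ0
  have h23 : (G + ε) * V = (G + ε / 2) * V + ε / 2 * V := by ring
  rw [h23]
  linarith

/-- **the second moment, lower bound** -/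
theorem second_lower (hRH : RiemannHypothesis) {x : ℝ} (hx : 0 < x) {ε : ℝ} (hε : 0 < ε) :
    ∀ᶠ V : ℝ in atTop, (x ^ 2 + LL x - ε) * V ≤ ∫ t in V..(2 * V), cn (hl x V) t ^ 2 := by
  have hpi := Real.pi_gt_three
  obtain ⟨μ, hμh, hμ1, k, hk⟩ := choose hx (show (0 : ℝ) < ε / 4 by linarith)
  have hμ0 : 0 < μ := by linarith
  set g := gm (μ * x) k with hgdef
  set I := ∫ t in (0 : ℝ)..1, t * g t with hI
  obtain ⟨V1, hV1, hp⟩ := Pool.Agent.Y747.blk_pair hRH (gm_cd (μ * x) k) (gm_one (μ * x) k)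
    hμ0 hμ1 (show (0 : ℝ) < ε / 8 by linarith)
  set A : ℝ := x ^ 2 + LL x with hA
  filter_upwards [eventually_ge_atTop V1, hl_small x hx,
    eventually_ge_atTop (4 * A / ε)] with V c1 c2 c4
  have hV10 : 10 ≤ V := hV1.trans c1
  obtain ⟨-, p2⟩ := hp V c1
  have hlogV : 0 < Real.log V := Real.log_pos (by linarith)
  set X := XV V with hX
  set κ : ℝ := μ * Real.log V / (2 * Real.pi) with hκ
  set h' := hl x V with hh'
  have hκ0 : 0 < κ := by rw [hκ]; positivity
  have hκh : κ * h' = μ * x := by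
    rw [hκ, hh']
    unfold hl
    field_simp
  have hX0 : 0 < X := by
    rw [hX]
    unfold Pool.Agent.TH873.EW.XV
    apply div_pos (mul_pos (by linarith) hlogV) (by positivity)
  have hXκ : μ * X = κ * (V - 2) := by
    rw [hX, hκ]
    unfold Pool.Agent.TH873.EW.XV
    ring
  have l := low (V := V) (by linarith) c2.1 c2.2 (by norm_num : 1 ≤ 2) (MM_sq_int V h')
  rw [int_MM_sq] at l
  refine le_trans ?_ l
  set S := ∑ n ∈ Bx V, ∑ k ∈ Bx V, max 0 (h' - |ord n - ord k|) with hS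
  have hT := tent_ge (B := Bx V) (a := ord) (κ := κ) (x := μ * x) (by positivity)
    (gm_cd (μ * x) k).continuous (gm_le (μ * x) k)
  have hpair : ∑ n ∈ Bx V, ∑ m ∈ Bx V, Real.exp (-(ord n - ord m) ^ 2 / 4) *
      max 0 (μ * x - |κ * (ord n - ord m)|) ≤ κ * S := by
    rw [hS, Finset.mul_sum]
    apply Finset.sum_le_sum
    intro n _
    rw [Finset.mul_sum]
    apply Finset.sum_le_sum
    intro m _
    have e1 : κ * max 0 (h' - |ord n - ord m|) = max 0 (μ * x - |κ * (ord n - ord m)|) := by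
      rw [mul_max_of_nonneg _ _ hκ0.le, mul_zero, mul_sub, hκh, abs_mul, abs_of_pos hκ0]
    rw [e1]
    have e2 : Real.exp (-(ord n - ord m) ^ 2 / 4) ≤ 1 := by
      rw [Real.exp_le_one_iff]
      have := sq_nonneg (ord n - ord m)
      linarith
    have e3 : 0 ≤ max 0 (μ * x - |κ * (ord n - ord m)|) := le_max_left _ _
    calc Real.exp (-(ord n - ord m) ^ 2 / 4) * max 0 (μ * x - |κ * (ord n - ord m)|) ≤
        1 * max 0 (μ * x - |κ * (ord n - ord m)|) := mul_le_mul_of_nonneg_right e2 e3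
      _ = _ := one_mul _
  have q3 := (abs_le.1 p2).1
  have hg0 : g 0 = (μ * x) ^ 2 := gm_zero _ _
  rw [← hI, gm_zero] at q3
  have h6 : κ * (μ * S) ≥ κ * ((μ * x ^ 2 + 2 * μ * I - ε / 8) * (V - 2)) := by
    have h7 : X * (μ * x ^ 2 + 2 * μ * I - ε / 8) ≤ κ * S := by
      have h8 : X * ((μ * x) ^ 2 / μ + 2 * μ * I) = X * (μ * x ^ 2 + 2 * μ * I) := by
        congr 2
        field_simp
      rw [h8] at q3
      linarith
    have h9 : μ * (X * (μ * x ^ 2 + 2 * μ * I - ε / 8)) ≤ μ * (κ * S) :=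
      mul_le_mul_of_nonneg_left h7 hμ0.le
    have h10 : μ * (X * (μ * x ^ 2 + 2 * μ * I - ε / 8)) =
        (μ * X) * (μ * x ^ 2 + 2 * μ * I - ε / 8) := by ring
    rw [h10, hXκ] at h9
    linarith
  have h11 : (μ * x ^ 2 + 2 * μ * I - ε / 8) * (V - 2) ≤ μ * S := le_of_mul_le_mul_left h6 hκ0
  have h12 : μ * ((A - ε / 2) * (V - 2)) ≤ (μ * x ^ 2 + 2 * μ * I - ε / 8) * (V - 2) := by
    rw [← mul_assoc]
    apply mul_le_mul_of_nonneg_right _ (by linarith)
    have h13 : μ * (LL x - ε / 4) ≤ μ * (2 * I) := mul_le_mul_of_nonneg_left hk hμ0.le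
    have h14 : ε / 8 ≤ μ * (ε / 4) := by nlinarith
    rw [hA]
    have h15 : μ * (x ^ 2 + LL x - ε / 2) = μ * x ^ 2 + μ * (LL x - ε / 4) - μ * (ε / 4) := by ring
    rw [h15]
    linarith
  have h16 : (A - ε / 2) * (V - 2) ≤ S := le_of_mul_le_mul_left (h12.trans h11) hμ0
  have c4' : 4 * A ≤ ε * V := by
    rw [div_le_iff₀ hε] at c4
    linarith
  have h17 : (A - ε / 2) * (V - 2) = A * V - 2 * A - ε / 2 * V + ε := by ring
  linarith

end Pool.Agent.H707.NV
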