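import Pool.Agent.H707.NV.Asy
import Pool.Agent.H707.SM.Fin

/-! Number variance and concentration of the window counts. -/

open Filter Topology Set MeasureTheory

namespace Pool.Agent.H707.NV

open SG (ord NZ)
open Pool.Agent.TH873.EW (ct mom XV)
open Pool.Agent.Y747 (Bx mem_Bx)
open Pool.Agent.H707.SM (hk cd_hk hk_one tent_le mom_val Jm H1 Jm_le)

lemma quad_int {h : ℝ} (hh : 0 ≤ h) {V : ℝ} (hV : 0 ≤ V) (b c : ℝ) :
    ∫ t in V..(2 * V), (cn h t ^ 2 - b * cn h t + c) =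
      (∫ t in V..(2 * V), cn h t ^ 2) - b * (∫ t in V..(2 * V), cn h t) + c * V := by
  have i2 := cn_pow_ii hh 2 (a := V) (b := 2 * V) (by linarith)
  have i1 : IntervalIntegrable (fun t => cn h t) volume V (2 * V) := by
    simpa using cn_pow_ii hh 1 (a := V) (b := 2 * V) (by linarith)
  rw [intervalIntegral.integral_add (i2.sub (i1.const_mul b)) intervalIntegrable_const,
    intervalIntegral.integral_sub i2 (i1.const_mul b), intervalIntegral.integral_const_mul,
    intervalIntegral.integral_const, smul_eq_mul]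
  ring

/-- lower bound for the number variance -/
theorem var_lower (hRH : RiemannHypothesis) {x : ℝ} (hx : 0 < x) {ε : ℝ} (hε : 0 < ε) :
    ∀ᶠ V : ℝ in atTop, (LL x - ε) * V ≤ ∫ t in V..(2 * V), (cn (hl x V) t - x) ^ 2 := by
  have he : 0 < ε / (2 * (1 + 2 * x)) := by positivity
  filter_upwards [second_lower hRH hx (half_pos hε), first hRH hx he, hl_small x hx,
    eventually_gt_atTop 0] with V h1 h2 h3 h4
  have e : ∀ t, (cn (hl x V) t - x) ^ 2 = cn (hl x V) t ^ 2 - 2 * x * cn (hl x V) t + x ^ 2 := by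
    intro t; ring
  simp_rw [e]
  rw [quad_int h3.1 h4.le]
  have h5 := (abs_le.1 h2).2
  have h6 : 2 * x * ((∫ t in V..(2 * V), cn (hl x V) t) - x * V) ≤
      2 * x * (ε / (2 * (1 + 2 * x)) * V) := mul_le_mul_of_nonneg_left h5 (by linarith)
  have h7 : 2 * x * (ε / (2 * (1 + 2 * x)) * V) ≤ ε / 2 * V := by
    have h8 : 2 * x * (ε / (2 * (1 + 2 * x))) ≤ ε / 2 := by
      rw [← mul_div_assoc, div_le_div_iff₀ (by positivity) (by norm_num)]
      nlinarith
    calc 2 * x * (ε / (2 * (1 + 2 * x)) * V) = 2 * x * (ε / (2 * (1 + 2 * x))) * V := by ring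
      _ ≤ ε / 2 * V := mul_le_mul_of_nonneg_right h8 h4.le
  nlinarith

/-- the quadratic form with values `≥ 0` -/
theorem quad_upper (hRH : RiemannHypothesis) (m : ℕ) (b c : ℝ) {ε : ℝ} (hε : 0 < ε) :
    ∀ᶠ V : ℝ in atTop, ∫ t in V..(2 * V), (cn (hl ((m : ℝ) + 1 / 2) V) t ^ 2 -
      b * cn (hl ((m : ℝ) + 1 / 2) V) t + c) ≤
      (Jm m + (2 * m + 1) * ((m : ℝ) + 1 / 2) - m * ((m : ℝ) + 1) - b * ((m : ℝ) + 1 / 2) + c + ε) * V := by
  set x : ℝ := (m : ℝ) + 1 / 2 with hx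
  have hx0 : 0 < x := by positivity
  have habs := abs_nonneg b
  have he : 0 < ε / (2 * (1 + |b|)) := by positivity
  have hmaj : ∀ u, max 0 (x - |u|) ≤ ct (hk x m) u := tent_le m
  filter_upwards [second_upper hRH (cd_hk x m) (hk_one x m) hx0 hmaj (half_pos hε),
    first hRH hx0 he, hl_small x hx0, eventually_gt_atTop 0] with V h1 h2 h3 h4
  rw [quad_int h3.1 h4.le]
  have hmv := mom_val m
  rw [← hx] at hmv
  have hG : mom (hk x m) = Jm m + (2 * m + 1) * x - m * ((m : ℝ) + 1) := by linarith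
  rw [hG] at h1
  have h6 : |b * ((∫ t in V..(2 * V), cn (hl x V) t) - x * V)| ≤ ε / 2 * V := by
    rw [abs_mul]
    have h7 : |b| * |(∫ t in V..(2 * V), cn (hl x V) t) - x * V| ≤
        |b| * (ε / (2 * (1 + |b|)) * V) := mul_le_mul_of_nonneg_left h2 habs
    have h8 : |b| * (ε / (2 * (1 + |b|))) ≤ ε / 2 := by
      rw [← mul_div_assoc, div_le_div_iff₀ (by positivity) (by norm_num)]
      nlinarith
    calc |b| * |(∫ t in V..(2 * V), cn (hl x V) t) - x * V| ≤
          |b| * (ε / (2 * (1 + |b|)) * V) := h7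
      _ = |b| * (ε / (2 * (1 + |b|))) * V := by ring
      _ ≤ ε / 2 * V := mul_le_mul_of_nonneg_right h8 h4.le
  have h9 := (abs_le.1 h6).1
  have h10 : (Jm m + (2 * m + 1) * x - m * ((m : ℝ) + 1) - b * x + c + ε) * V =
      (Jm m + (2 * m + 1) * x - m * ((m : ℝ) + 1) + ε / 2) * V - b * (x * V) + c * V +
        ε / 2 * V := by ring
  rw [h10]
  have h11 : b * ((∫ t in V..(2 * V), cn (hl x V) t) - x * V) =
      b * (∫ t in V..(2 * V), cn (hl x V) t) - b * (x * V) := by ring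
  rw [h11] at h9
  linarith

lemma tent_conv {h0 h1 s : ℝ} (hs0 : 0 ≤ s) (hs1 : s ≤ 1) (d : ℝ) :
    max 0 (((1 - s) * h0 + s * h1) - d) ≤ (1 - s) * max 0 (h0 - d) + s * max 0 (h1 - d) := by
  have a0 : 0 ≤ max 0 (h0 - d) := le_max_left _ _
  have a1 : 0 ≤ max 0 (h1 - d) := le_max_left _ _
  have b0 : h0 - d ≤ max 0 (h0 - d) := le_max_right _ _
  have b1 : h1 - d ≤ max 0 (h1 - d) := le_max_right _ _
  have c0 : (1 - s) * (h0 - d) ≤ (1 - s) * max 0 (h0 - d) :=
    mul_le_mul_of_nonneg_left b0 (by linarith)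
  have c1 : s * (h1 - d) ≤ s * max 0 (h1 - d) := mul_le_mul_of_nonneg_left b1 hs0
  apply max_le
  · have := mul_nonneg (by linarith : 0 ≤ 1 - s) a0
    have := mul_nonneg hs0 a1
    linarith
  · have : ((1 - s) * h0 + s * h1) - d = (1 - s) * (h0 - d) + s * (h1 - d) := by ring
    linarith

/-- the second moment of the counts is a convex function of the length of the window -/
lemma conv_moment {V h0 h1 h s K : ℝ} (hV : 4 ≤ V) (hs0 : 0 ≤ s) (hs1 : s ≤ 1)
    (h00 : 0 ≤ h0) (h01 : h0 ≤ 1) (h10 : 0 ≤ h1) (h11 : h1 ≤ 1) (hh : h = (1 - s) * h0 + s * h1)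
    (hK : ∀ t ∈ Icc V (2 * V), cn h t ≤ K) :
    ∫ t in V..(2 * V), cn h t ^ 2 ≤ (1 - s) * (∫ t in V..(2 * V), cn h0 t ^ 2) +
      s * (∫ t in V..(2 * V), cn h1 t ^ 2) + 3 * K ^ 2 := by
  have a0 : 0 ≤ h := by
    have := mul_nonneg (by linarith : 0 ≤ 1 - s) h00
    have := mul_nonneg hs0 h10
    linarith
  have a1 : h ≤ 1 := by
    have := mul_le_mul_of_nonneg_left h01 (by linarith : 0 ≤ 1 - s)
    have := mul_le_mul_of_nonneg_left h11 hs0
    linarith
  have u := upp hV a0 a1 (MM_sq_int V h) hK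
  have l0 := low (V := V) (by linarith) h00 h01 (by norm_num : 1 ≤ 2) (MM_sq_int V h0)
  have l1 := low (V := V) (by linarith) h10 h11 (by norm_num : 1 ≤ 2) (MM_sq_int V h1)
  rw [int_MM_sq] at u l0 l1
  have hS : ∑ n ∈ Bx V, ∑ k ∈ Bx V, max 0 (h - |ord n - ord k|) ≤
      (1 - s) * ∑ n ∈ Bx V, ∑ k ∈ Bx V, max 0 (h0 - |ord n - ord k|) +
      s * ∑ n ∈ Bx V, ∑ k ∈ Bx V, max 0 (h1 - |ord n - ord k|) := by
    rw [Finset.mul_sum, Finset.mul_sum, ← Finset.sum_add_distrib]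
    apply Finset.sum_le_sum
    intro n _
    rw [Finset.mul_sum, Finset.mul_sum, ← Finset.sum_add_distrib]
    apply Finset.sum_le_sum
    intro k _
    rw [hh]
    exact tent_conv hs0 hs1 _
  have m0 := mul_le_mul_of_nonneg_left l0 (by linarith : 0 ≤ 1 - s)
  have m1 := mul_le_mul_of_nonneg_left l1 hs0
  linarith

/-- upper bound for the number variance -/
theorem var_upper (hRH : RiemannHypothesis) (m : ℕ) {s : ℝ} (hs0 : 0 ≤ s) (hs1 : s ≤ 1)
    {ε : ℝ} (hε : 0 < ε) :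
    ∀ᶠ V : ℝ in atTop, ∫ t in V..(2 * V),
      (cn (hl ((m : ℝ) + 1 / 2 + s) V) t - ((m : ℝ) + 1 / 2 + s)) ^ 2 ≤
      (1 / 4 + (1 - s) * Jm m + s * Jm (m + 1) + s * (1 - s) + ε) * V := by
  set x : ℝ := (m : ℝ) + 1 / 2 + s with hx
  have hx0 : 0 < x := by positivity
  have hm0 : (0 : ℝ) < (m : ℝ) + 1 / 2 := by positivity
  have hm1 : (0 : ℝ) < ((m + 1 : ℕ) : ℝ) + 1 / 2 := by positivity
  have he : 0 < ε / 4 := by positivity
  have he2 : 0 < ε / (8 * x) := by positivity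
  obtain ⟨C, hC, hloc⟩ := cn_log
  filter_upwards [quad_upper hRH m 0 0 he, quad_upper hRH (m + 1) 0 0 he, first hRH hx0 he2,
    hl_small x hx0, hl_small _ hm0, hl_small _ hm1, log_small C he 2,
    eventually_ge_atTop 4] with V q0 q1 f1 s1 s2 s3 k1 hV
  have e : ∀ t, (cn (hl x V) t - x) ^ 2 =
      cn (hl x V) t ^ 2 - 2 * x * cn (hl x V) t + x ^ 2 := by
    intro t; ring
  simp_rw [e]
  rw [quad_int s1.1 (by linarith)]
  simp only [zero_mul, sub_zero, add_zero] at q0 q1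
  have hh : hl x V = (1 - s) * hl ((m : ℝ) + 1 / 2) V + s * hl (((m + 1 : ℕ) : ℝ) + 1 / 2) V := by
    unfold hl
    rw [hx]
    push_cast
    ring
  have c := conv_moment hV hs0 hs1 s2.1 s2.2 s3.1 s3.2 hh (hloc V (by linarith) _ s1.2)
  have m0 := mul_le_mul_of_nonneg_left q0 (by linarith : 0 ≤ 1 - s)
  have m1 := mul_le_mul_of_nonneg_left q1 hs0
  have f2 := (abs_le.1 f1).1
  have f3 : 2 * x * (-(ε / (8 * x) * V)) ≤ 2 * x * ((∫ t in V..(2 * V), cn (hl x V) t) - x * V) :=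
    mul_le_mul_of_nonneg_left f2 (by linarith)
  have f4 : 2 * x * (-(ε / (8 * x) * V)) = -(ε / 4 * V) := by
    field_simp
    ring
  rw [f4] at f3
  have hfin : (1 - s) * ((Jm m + (2 * m + 1) * ((m : ℝ) + 1 / 2) - m * ((m : ℝ) + 1) + ε / 4) * V) +
      s * ((Jm (m + 1) + (2 * ((m + 1 : ℕ) : ℝ) + 1) * (((m + 1 : ℕ) : ℝ) + 1 / 2) -
        ((m + 1 : ℕ) : ℝ) * (((m + 1 : ℕ) : ℝ) + 1) + ε / 4) * V) + ε / 4 * V -
      2 * x * (x * V) + ε / 4 * V + x ^ 2 * V + ε / 4 * V =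
      (1 / 4 + (1 - s) * Jm m + s * Jm (m + 1) + s * (1 - s) + ε) * V := by
    rw [hx]
    push_cast
    ring
  rw [← hfin]
  have hεV : 0 ≤ ε / 4 * V := mul_nonneg he.le (by linarith)
  linarith

/-- the integer valued count -/
noncomputable def cz (h t : ℝ) : ℤ := (NZ (t + h) : ℤ) - NZ t

lemma cz_cast (h t : ℝ) : (cz h t : ℝ) = cn h t := by
  unfold cz cn
  push_cast
  rfl

/-- **concentration** -/
theorem conc (hRH : RiemannHypothesis) (m : ℕ) {ε : ℝ} (hε : 0 < ε) :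
    ∀ᶠ V : ℝ in atTop, volume.real {t : ℝ | V ≤ t ∧ t ≤ 2 * V ∧
      cz (hl ((m : ℝ) + 1 / 2) V) t ≠ m ∧ cz (hl ((m : ℝ) + 1 / 2) V) t ≠ m + 1} ≤
      (Jm m / 2 + ε) * V := by
  have hx0 : (0 : ℝ) < (m : ℝ) + 1 / 2 := by positivity
  filter_upwards [quad_upper hRH m (2 * (m : ℝ) + 1) ((m : ℝ) * (m + 1))
    (show (0 : ℝ) < 2 * ε by linarith), hl_small _ hx0, eventually_gt_atTop 0] with V h h3 h4
  set h' := hl ((m : ℝ) + 1 / 2) V with hh'
  set F : ℝ → ℝ := fun t => cn h' t ^ 2 - (2 * (m : ℝ) + 1) * cn h' t + (m : ℝ) * (m + 1) with hF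
  have hFz : ∀ t, F t = (((cz h' t - m) * (cz h' t - (m + 1)) : ℤ) : ℝ) := by
    intro t
    push_cast
    rw [cz_cast]
    simp only [hF]
    ring
  have hF0 : ∀ t, 0 ≤ F t := by
    intro t
    rw [hFz]
    have : (0 : ℤ) ≤ (cz h' t - m) * (cz h' t - (m + 1)) := by
      rcases le_or_gt (cz h' t) m with h5 | h5
      · nlinarith
      · have h6 : (m : ℤ) + 1 ≤ cz h' t := h5
        nlinarith
    exact_mod_cast this
  have hF2 : ∀ t, cz h' t ≠ m → cz h' t ≠ m + 1 → 2 ≤ F t := by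
    intro t h5 h6
    rw [hFz]
    have : (2 : ℤ) ≤ (cz h' t - m) * (cz h' t - (m + 1)) := by
      rcases lt_or_gt_of_ne h5 with h7 | h7
      · have h8 : cz h' t + 1 ≤ m := h7
        nlinarith
      · have h8 : (m : ℤ) + 1 ≤ cz h' t := h7
        have h9 : (m : ℤ) + 2 ≤ cz h' t := by
          have := lt_of_le_of_ne h8 (Ne.symm h6)
          omega
        nlinarith
    exact_mod_cast this
  have i2 := cn_pow_ii h3.1 2 (a := V) (b := 2 * V) (by linarith)
  have i1 : IntervalIntegrable (fun t => cn h' t) volume V (2 * V) := by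
    simpa using cn_pow_ii h3.1 1 (a := V) (b := 2 * V) (by linarith)
  have iF : IntervalIntegrable F volume V (2 * V) :=
    (i2.sub (i1.const_mul _)).add intervalIntegrable_const
  have iF' : IntegrableOn F (Icc V (2 * V)) :=
    (intervalIntegrable_iff_integrableOn_Icc_of_le (by linarith)).1 iF
  have hint : ∫ t in V..(2 * V), F t = ∫ t in Icc V (2 * V), F t := by
    rw [intervalIntegral.integral_of_le (by linarith), integral_Icc_eq_integral_Ioc]
  have hmark := mul_meas_ge_le_integral_of_nonneg (μ := volume.restrict (Icc V (2 * V)))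
    (Filter.Eventually.of_forall hF0) iF' 2
  rw [← hint] at hmark
  have hFm : Measurable F := by
    have := cn_meas h'
    simp only [hF]
    fun_prop
  have hset : volume.real {t : ℝ | V ≤ t ∧ t ≤ 2 * V ∧ cz h' t ≠ m ∧ cz h' t ≠ m + 1} ≤
      (volume.restrict (Icc V (2 * V))).real {t | 2 ≤ F t} := by
    have hms : MeasurableSet {t | 2 ≤ F t} := measurableSet_le measurable_const hFm
    rw [measureReal_restrict_apply hms]
    apply measureReal_mono
    · rintro t ⟨a1, a2, a3, a4⟩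
      exact ⟨hF2 t a3 a4, a1, a2⟩
    · apply ne_of_lt
      refine (measure_mono inter_subset_right).trans_lt ?_
      rw [Real.volume_Icc]
      exact ENNReal.ofReal_lt_top
  have h9 : 2 * volume.real {t : ℝ | V ≤ t ∧ t ≤ 2 * V ∧ cz h' t ≠ m ∧ cz h' t ≠ m + 1} ≤
      (Jm m + 2 * ε) * V := by
    have h10 : (Jm m + (2 * m + 1) * ((m : ℝ) + 1 / 2) - m * ((m : ℝ) + 1) -
        (2 * (m : ℝ) + 1) * ((m : ℝ) + 1 / 2) + (m : ℝ) * (m + 1) + 2 * ε) * V =
        (Jm m + 2 * ε) * V := by ring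
    rw [h10] at h
    have h11 : ∫ t in V..(2 * V), F t ≤ (Jm m + 2 * ε) * V := h
    linarith
  linarith

lemma Jm_num (m : ℕ) (hm : m ≤ 2 ^ 24) : Jm m / 2 ≤ 0.995 := by
  have h1 := Jm_le m
  have h2 : H1 m ≤ 1 + Real.log (2 ^ 24) := by
    rcases Nat.eq_zero_or_pos m with h0 | h0
    · rw [h0]
      have : H1 0 = 0 := Pool.Agent.H707.SM.H1_zero
      rw [this]
      have : 0 ≤ Real.log (2 ^ 24) := Real.log_nonneg (by norm_num)
      linarith
    · have h3 := harmonic_le_one_add_log m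
      have h4 : (harmonic m : ℝ) = H1 m := by
        unfold harmonic Pool.Agent.H707.SM.H1
        push_cast
        apply Finset.sum_congr rfl
        intro k _
        rw [one_div]
      rw [h4] at h3
      have h5 : Real.log m ≤ Real.log (2 ^ 24) := by
        apply Real.log_le_log (by exact_mod_cast h0)
        exact_mod_cast hm
      linarith
  rw [Real.log_pow] at h2
  have h3 := Real.log_two_lt_d9
  obtain ⟨h5, h4⟩ := Pool.Agent.H707.SM.pi_sq_le
  have hp : 0 < Real.pi ^ 2 := by positivity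
  rw [le_div_iff₀ hp] at h1
  push_cast at h2
  have h6 : Jm m * Real.pi ^ 2 ≤ 19.6356 := by linarith
  by_contra hcon
  rw [not_le] at hcon
  have h7 : 1.99 < Jm m := by linarith
  nlinarith

end Pool.Agent.H707.NV
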