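import Mathlib

/-! The tent function as a Fourier integral (the computation of `Pool.Agent.Helper7.OT.Sinc`). -/

open MeasureTheory Filter Topology Set

namespace Pool.Agent.H707.NV

open FourierTransform in
theorem sinc_fourier_aux1 (t : ℝ) :
    𝓕 (fun x : ℝ => ((max 0 (1 - |x|) : ℝ) : ℂ)) t = ((Real.sinc (Real.pi * t) ^ 2 : ℝ) : ℂ) := by
  set a : ℂ := -(2 * Real.pi * t * Complex.I) with ha
  have h1 : 𝓕 (fun x : ℝ => ((max 0 (1 - |x|) : ℝ) : ℂ)) t =
      ∫ x : ℝ, ((max 0 (1 - |x|) : ℝ) : ℂ) * Complex.exp (a * x) := by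
    rw [Real.fourier_real_eq_integral_exp_smul]
    congr 1
    funext x
    rw [smul_eq_mul, mul_comm]
    congr 2
    rw [ha]; push_cast; ring
  have hsupp : ∀ x : ℝ, x ∉ Set.Ioc (-1 : ℝ) 1 →
      ((max 0 (1 - |x|) : ℝ) : ℂ) * Complex.exp (a * x) = 0 := by
    intro x hx
    have h2 : max 0 (1 - |x|) = 0 := by
      apply max_eq_left
      by_contra hcon
      push Not at hcon
      have h3 : |x| < 1 := by linarith
      rw [abs_lt] at h3
      exact hx ⟨h3.1, h3.2.le⟩
    rw [h2]; simp
  have h2 : ∫ x : ℝ, ((max 0 (1 - |x|) : ℝ) : ℂ) * Complex.exp (a * x) =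
      ∫ x in (-1 : ℝ)..1, ((max 0 (1 - |x|) : ℝ) : ℂ) * Complex.exp (a * x) := by
    rw [intervalIntegral.integral_of_le (by norm_num)]
    exact (setIntegral_eq_integral_of_forall_compl_eq_zero hsupp).symm
  have hcont : Continuous (fun x : ℝ => ((max 0 (1 - |x|) : ℝ) : ℂ) * Complex.exp (a * x)) := by
    fun_prop
  have h3 : ∫ x in (-1 : ℝ)..1, ((max 0 (1 - |x|) : ℝ) : ℂ) * Complex.exp (a * x) =
      (∫ x in (-1 : ℝ)..0, (1 + (x : ℂ)) * Complex.exp (a * x)) +
        ∫ x in (0 : ℝ)..1, (1 - (x : ℂ)) * Complex.exp (a * x) := by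
    rw [← intervalIntegral.integral_add_adjacent_intervals (b := 0)
      (hcont.intervalIntegrable _ _) (hcont.intervalIntegrable _ _)]
    congr 1
    · apply intervalIntegral.integral_congr
      intro x hx
      rw [Set.uIcc_of_le (by norm_num)] at hx
      simp only
      rw [abs_of_nonpos hx.2, max_eq_right (by linarith [hx.1])]
      push_cast; ring
    · apply intervalIntegral.integral_congr
      intro x hx
      rw [Set.uIcc_of_le (by norm_num)] at hx
      simp only
      rw [abs_of_nonneg hx.1, max_eq_right (by linarith [hx.2])]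
      push_cast; ring
  rw [h1, h2, h3]
  by_cases ht : t = 0
  · have ha0 : a = 0 := by rw [ha, ht]; simp
    rw [ha0, ht]
    simp only [zero_mul, Complex.exp_zero, mul_one, mul_zero, Real.sinc_zero, one_pow]
    have e1 : ∫ x in (-1 : ℝ)..0, (1 + (x : ℂ)) = 1 / 2 := by
      have : ∀ x : ℝ, HasDerivAt (fun x : ℝ => (x : ℂ) + (x : ℂ) ^ 2 / 2) (1 + (x : ℂ)) x := by
        intro x
        have hx : HasDerivAt (fun x : ℝ => (x : ℂ)) 1 x := Complex.ofRealCLM.hasDerivAt
        have h4 := hx.add ((hx.pow 2).div_const 2)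
        have h5 : (1 : ℂ) + (x : ℂ) = 1 + ((2 : ℕ) : ℂ) * (x : ℂ) ^ (2 - 1) * 1 / 2 := by
          norm_num
        rw [h5]
        exact h4
      rw [intervalIntegral.integral_eq_sub_of_hasDerivAt (fun x _ => this x)
        (Continuous.intervalIntegrable (by fun_prop) _ _)]
      push_cast; norm_num
    have e2 : ∫ x in (0 : ℝ)..1, (1 - (x : ℂ)) = 1 / 2 := by
      have : ∀ x : ℝ, HasDerivAt (fun x : ℝ => (x : ℂ) - (x : ℂ) ^ 2 / 2) (1 - (x : ℂ)) x := by
        intro x
        have hx : HasDerivAt (fun x : ℝ => (x : ℂ)) 1 x := Complex.ofRealCLM.hasDerivAt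
        have h4 := hx.sub ((hx.pow 2).div_const 2)
        have h5 : (1 : ℂ) - (x : ℂ) = 1 - ((2 : ℕ) : ℂ) * (x : ℂ) ^ (2 - 1) * 1 / 2 := by
          norm_num
        rw [h5]
        exact h4
      rw [intervalIntegral.integral_eq_sub_of_hasDerivAt (fun x _ => this x)
        (Continuous.intervalIntegrable (by fun_prop) _ _)]
      push_cast; norm_num
    rw [e1, e2]
    norm_num
  · have hpi : (Real.pi : ℂ) ≠ 0 := by exact_mod_cast Real.pi_ne_zero
    have htc : (t : ℂ) ≠ 0 := by exact_mod_cast ht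
    have ha0 : a ≠ 0 := by
      rw [ha]
      simp [hpi, htc, Complex.I_ne_zero]
    have hexp : ∀ x : ℝ, HasDerivAt (fun x : ℝ => Complex.exp (a * x))
        (Complex.exp (a * x) * a) x := by
      intro x
      have hx : HasDerivAt (fun x : ℝ => (x : ℂ)) 1 x := Complex.ofRealCLM.hasDerivAt
      have := (hx.const_mul a).cexp
      rw [mul_one] at this
      exact this
    have e1 : ∫ x in (-1 : ℝ)..0, (1 + (x : ℂ)) * Complex.exp (a * x) =
        1 / a - 1 / a ^ 2 + Complex.exp (-a) / a ^ 2 := by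
      have : ∀ x : ℝ, HasDerivAt (fun x : ℝ => (1 + (x : ℂ)) * Complex.exp (a * x) * (1 / a) -
          Complex.exp (a * x) * (1 / a ^ 2)) ((1 + (x : ℂ)) * Complex.exp (a * x)) x := by
        intro x
        have hx : HasDerivAt (fun x : ℝ => (x : ℂ)) 1 x := Complex.ofRealCLM.hasDerivAt
        have h4 := ((((hx.const_add 1).mul (hexp x)).mul_const (1 / a)).sub
          ((hexp x).mul_const (1 / a ^ 2)))
        have h5 : (1 + (x : ℂ)) * Complex.exp (a * x) =
            (1 * Complex.exp (a * x) + (1 + (x : ℂ)) * (Complex.exp (a * x) * a)) * (1 / a) -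
            Complex.exp (a * x) * a * (1 / a ^ 2) := by
          field_simp
          ring
        rw [h5]
        exact h4
      rw [intervalIntegral.integral_eq_sub_of_hasDerivAt (fun x _ => this x)
        (Continuous.intervalIntegrable (by fun_prop) _ _)]
      have h6 : a * ((-1 : ℝ) : ℂ) = -a := by push_cast; ring
      have h7 : a * ((0 : ℝ) : ℂ) = 0 := by push_cast; ring
      rw [h6, h7, Complex.exp_zero]
      push_cast
      ring
    have e2 : ∫ x in (0 : ℝ)..1, (1 - (x : ℂ)) * Complex.exp (a * x) =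
        Complex.exp a / a ^ 2 - 1 / a - 1 / a ^ 2 := by
      have : ∀ x : ℝ, HasDerivAt (fun x : ℝ => (1 - (x : ℂ)) * Complex.exp (a * x) * (1 / a) +
          Complex.exp (a * x) * (1 / a ^ 2)) ((1 - (x : ℂ)) * Complex.exp (a * x)) x := by
        intro x
        have hx : HasDerivAt (fun x : ℝ => (x : ℂ)) 1 x := Complex.ofRealCLM.hasDerivAt
        have h4 := ((((hx.const_sub 1).mul (hexp x)).mul_const (1 / a)).add
          ((hexp x).mul_const (1 / a ^ 2)))
        have h5 : (1 - (x : ℂ)) * Complex.exp (a * x) =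
            (-1 * Complex.exp (a * x) + (1 - (x : ℂ)) * (Complex.exp (a * x) * a)) * (1 / a) +
            Complex.exp (a * x) * a * (1 / a ^ 2) := by
          field_simp
          ring
        rw [h5]
        exact h4
      rw [intervalIntegral.integral_eq_sub_of_hasDerivAt (fun x _ => this x)
        (Continuous.intervalIntegrable (by fun_prop) _ _)]
      have h6 : a * ((1 : ℝ) : ℂ) = a := by push_cast; ring
      have h7 : a * ((0 : ℝ) : ℂ) = 0 := by push_cast; ring
      rw [h6, h7, Complex.exp_zero]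
      push_cast
      ring
    rw [e1, e2, Real.sinc_of_ne_zero (mul_ne_zero Real.pi_ne_zero ht)]
    have hcos : Complex.exp a + Complex.exp (-a) = 2 * Complex.cos (2 * (Real.pi * t)) := by
      rw [Complex.cos, ha]
      have : -(2 * (Real.pi * t)) * Complex.I = -(2 * Real.pi * t * Complex.I) := by ring
      rw [this]
      have h8 : 2 * ((Real.pi : ℂ) * t) * Complex.I = - -(2 * Real.pi * t * Complex.I) := by ring
      rw [h8]
      ring
    have hcos2 : Complex.cos (2 * (Real.pi * t)) = 1 - 2 * Complex.sin (Real.pi * t) ^ 2 := by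
      rw [Complex.cos_two_mul]
      have := Complex.sin_sq_add_cos_sq ((Real.pi : ℂ) * t)
      linear_combination 2 * this
    have ha2 : a ^ 2 = -(4 * (Real.pi * t) ^ 2) := by
      rw [ha]
      have := Complex.I_sq
      linear_combination (4 * (Real.pi : ℂ) ^ 2 * (t : ℂ) ^ 2) * this
    have h9 : 1 / a - 1 / a ^ 2 + Complex.exp (-a) / a ^ 2 +
        (Complex.exp a / a ^ 2 - 1 / a - 1 / a ^ 2) =
        (Complex.exp a + Complex.exp (-a) - 2) / a ^ 2 := by ring
    rw [h9, hcos, hcos2, ha2]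
    push_cast
    field_simp
    ring

theorem sinc_fourier_int : Integrable (fun t : ℝ => Real.sinc (Real.pi * t) ^ 2) := by
  have hcont : Continuous (fun t : ℝ => Real.sinc (Real.pi * t) ^ 2) := by
    have := Real.continuous_sinc
    fun_prop
  have hdom : Integrable (fun t : ℝ => 2 * (1 + t ^ 2)⁻¹) := integrable_inv_one_add_sq.const_mul 2
  refine hdom.mono' hcont.aestronglyMeasurable (Filter.Eventually.of_forall fun t => ?_)
  rw [Real.norm_eq_abs, abs_of_nonneg (sq_nonneg _)]
  have h1 : Real.sinc (Real.pi * t) ^ 2 ≤ 1 := by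
    have := Real.abs_sinc_le_one (Real.pi * t)
    rw [← sq_abs]
    nlinarith [abs_nonneg (Real.sinc (Real.pi * t))]
  have h2 : Real.sinc (Real.pi * t) ^ 2 * t ^ 2 ≤ 1 := by
    by_cases ht : t = 0
    · rw [ht]; norm_num
    · rw [Real.sinc_of_ne_zero (mul_ne_zero Real.pi_ne_zero ht)]
      have h3 : (Real.sin (Real.pi * t) / (Real.pi * t)) ^ 2 * t ^ 2 =
          Real.sin (Real.pi * t) ^ 2 / Real.pi ^ 2 := by
        have := Real.pi_ne_zero
        field_simp
      rw [h3, div_le_one (by positivity)]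
      have h4 := Real.sin_sq_le_one (Real.pi * t)
      have h5 := Real.pi_gt_three
      nlinarith
  rw [← div_eq_mul_inv, le_div_iff₀ (by positivity)]
  nlinarith

open FourierTransform in
/-- the Fourier transform of `sinc²` is the triangle function -/
theorem sinc_fourier (x : ℝ) : Integrable (fun t : ℝ => Real.sinc (Real.pi * t) ^ 2) ∧
    ∫ t : ℝ, Real.sinc (Real.pi * t) ^ 2 * Real.cos (2 * Real.pi * x * t) = max 0 (1 - |x|) := by
  refine ⟨sinc_fourier_int, ?_⟩
  have hc : Continuous (fun x : ℝ => ((max 0 (1 - |x|) : ℝ) : ℂ)) := by fun_prop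
  have hcs : HasCompactSupport (fun x : ℝ => ((max 0 (1 - |x|) : ℝ) : ℂ)) := by
    apply HasCompactSupport.of_support_subset_isCompact (K := Set.Icc (-1 : ℝ) 1) isCompact_Icc
    intro y hy
    by_contra hcon
    apply hy
    have h2 : max 0 (1 - |y|) = 0 := by
      apply max_eq_left
      by_contra hcon2
      push Not at hcon2
      have h3 : |y| < 1 := by linarith
      rw [abs_lt] at h3
      exact hcon ⟨h3.1.le, h3.2.le⟩
    simp only
    rw [h2]; simp
  have hi : Integrable (fun x : ℝ => ((max 0 (1 - |x|) : ℝ) : ℂ)) :=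
    hc.integrable_of_hasCompactSupport hcs
  have hF : 𝓕 (fun x : ℝ => ((max 0 (1 - |x|) : ℝ) : ℂ)) =
      fun t => ((Real.sinc (Real.pi * t) ^ 2 : ℝ) : ℂ) := by
    funext t; exact sinc_fourier_aux1 t
  have hFi : Integrable (𝓕 (fun x : ℝ => ((max 0 (1 - |x|) : ℝ) : ℂ))) := by
    rw [hF]
    exact sinc_fourier_int.ofReal
  have hinv := hc.fourierInv_fourier_eq hi hFi
  have hx := congrFun hinv x
  rw [hF, Real.fourierInv_eq'] at hx
  have hre := congrArg Complex.re hx
  rw [Complex.ofReal_re] at hre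
  rw [← hre]
  have hInt : Integrable (fun v : ℝ => Complex.exp (((2 * Real.pi * inner ℝ v x : ℝ) : ℂ) * Complex.I) •
      ((Real.sinc (Real.pi * v) ^ 2 : ℝ) : ℂ)) := by
    have h0 : Continuous (fun v : ℝ => Complex.exp (((2 * Real.pi * inner ℝ v x : ℝ) : ℂ) *
      Complex.I)) := by fun_prop
    refine (sinc_fourier_int.ofReal (𝕜 := ℂ)).bdd_smul 1 h0.aestronglyMeasurable ?_
    refine Filter.Eventually.of_forall fun v => ?_
    rw [Complex.norm_exp_ofReal_mul_I]
  have h4 := (Complex.reCLM.integral_comp_comm hInt)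
  have h5 : (∫ v : ℝ, Complex.exp (((2 * Real.pi * inner ℝ v x : ℝ) : ℂ) * Complex.I) •
      ((Real.sinc (Real.pi * v) ^ 2 : ℝ) : ℂ)).re = ∫ v : ℝ, Complex.reCLM (Complex.exp
        (((2 * Real.pi * inner ℝ v x : ℝ) : ℂ) * Complex.I) •
      ((Real.sinc (Real.pi * v) ^ 2 : ℝ) : ℂ)) := h4.symm
  refine Eq.trans ?_ h5.symm
  congr 1
  funext v
  rw [Complex.reCLM_apply, smul_eq_mul, Complex.re_mul_ofReal, Complex.exp_ofReal_mul_I_re]
  have h6 : (inner ℝ v x : ℝ) = x * v := by
    simp
  rw [h6, mul_comm]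
  congr 2
  ring


/-- the tent of width `x` -/
theorem tent_fourier {x : ℝ} (hx : 0 < x) (u : ℝ) :
    Integrable (fun α : ℝ => x ^ 2 * Real.sinc (Real.pi * x * α) ^ 2 * Real.cos (2 * Real.pi * u * α)) ∧
    ∫ α : ℝ, x ^ 2 * Real.sinc (Real.pi * x * α) ^ 2 * Real.cos (2 * Real.pi * u * α) =
      max 0 (x - |u|) := by
  obtain ⟨h1, h2⟩ := sinc_fourier (u / x)
  have hF : (fun α : ℝ => x ^ 2 * Real.sinc (Real.pi * x * α) ^ 2 * Real.cos (2 * Real.pi * u * α)) =
      fun α : ℝ => x ^ 2 * ((fun t : ℝ => Real.sinc (Real.pi * t) ^ 2 *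
        Real.cos (2 * Real.pi * (u / x) * t)) (x * α)) := by
    funext α
    simp only
    have e1 : Real.pi * (x * α) = Real.pi * x * α := by ring
    have e2 : 2 * Real.pi * (u / x) * (x * α) = 2 * Real.pi * u * α := by field_simp
    rw [e1, e2]
    ring
  have h3 : Integrable (fun t : ℝ => Real.sinc (Real.pi * t) ^ 2 *
      Real.cos (2 * Real.pi * (u / x) * t)) := by
    refine h1.mul_bdd (c := 1) ?_ ?_
    · exact Continuous.aestronglyMeasurable (by fun_prop)
    · exact Filter.Eventually.of_forall fun t => Real.abs_cos_le_one _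
  constructor
  · rw [hF]
    exact (h3.comp_mul_left' hx.ne').const_mul _
  · have h4 := Measure.integral_comp_mul_left (fun t : ℝ => Real.sinc (Real.pi * t) ^ 2 *
        Real.cos (2 * Real.pi * (u / x) * t)) x
    rw [hF, integral_const_mul, h4, h2, abs_inv, abs_of_pos hx, smul_eq_mul]
    rw [abs_div, abs_of_pos hx]
    rcases le_total x |u| with h | h
    · have a1 : max 0 (x - |u|) = 0 := max_eq_left (by linarith)
      have a2 : max 0 (1 - |u| / x) = 0 := max_eq_left (by
        rw [sub_nonpos, le_div_iff₀ hx]; linarith)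
      rw [a1, a2]
      ring
    · have a1 : max 0 (x - |u|) = x - |u| := max_eq_right (by linarith)
      have a2 : max 0 (1 - |u| / x) = 1 - |u| / x := max_eq_right (by
        rw [sub_nonneg, div_le_iff₀ hx]; linarith)
      rw [a1, a2]
      field_simp

end Pool.Agent.H707.NV
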