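import Pool.Agent.H707.NV.Pos

/-! The minorant. -/

open MeasureTheory Filter Topology Set

namespace Pool.Agent.H707.NV

open Pool.Agent.TH873.EW (ct mom)

open FourierTransform in
lemma contDiff_sinc_sq : ContDiff ℝ 1 (fun t : ℝ => Real.sinc (Real.pi * t) ^ 2) := by
  have hc : Continuous (fun x : ℝ => ((max 0 (1 - |x|) : ℝ) : ℂ)) := by fun_prop
  have hcs : HasCompactSupport (fun x : ℝ => ((max 0 (1 - |x|) : ℝ) : ℂ)) := by
    apply HasCompactSupport.of_support_subset_isCompact (K := Set.Icc (-1 : ℝ) 1) isCompact_Icc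
    intro y hy
    by_contra hcon
    apply hy
    have h2 : max 0 (1 - |y|) = 0 := by
      apply max_eq_left
      by_contra hcon2
      push Not at hcon2
      have h3 : |y| < 1 := by linarith
      rw [abs_lt] at h3
      exact hcon ⟨h3.1.le, h3.2.le⟩
    simp only
    rw [h2]; simp
  have h1 : ContDiff ℝ ((1 : ℕ∞) : WithTop ℕ∞)
      (𝓕 (fun x : ℝ => ((max 0 (1 - |x|) : ℝ) : ℂ))) := by
    apply Real.contDiff_fourier
    intro n _
    apply Continuous.integrable_of_hasCompactSupport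
    · fun_prop
    · exact (hcs.norm).mul_left
  have h2 : (fun t : ℝ => Real.sinc (Real.pi * t) ^ 2) =
      fun t => Complex.reCLM (𝓕 (fun x : ℝ => ((max 0 (1 - |x|) : ℝ) : ℂ)) t) := by
    funext t
    rw [sinc_fourier_aux1, Complex.reCLM_apply, Complex.ofReal_re]
  rw [h2]
  exact Complex.reCLM.contDiff.comp h1

lemma hh_cd (x : ℝ) : ContDiff ℝ 1 (hh x) := by
  have h : hh x = fun α => x ^ 2 * (fun t : ℝ => Real.sinc (Real.pi * t) ^ 2) (x * α) := by
    funext α
    unfold hh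
    simp only
    rw [← mul_assoc]
  rw [h]
  have h2 : ContDiff ℝ 1 (fun α : ℝ => x * α) := by fun_prop
  exact contDiff_const.mul (contDiff_sinc_sq.comp h2)

/-- the minorant -/
noncomputable def gm (x : ℝ) (k : ℕ) (t : ℝ) : ℝ := hh x t * (1 - t ^ (k + 1))

lemma gm_cd (x : ℝ) (k : ℕ) : ContDiff ℝ 1 (gm x k) := by
  unfold gm
  exact (hh_cd x).mul (by fun_prop)

lemma gm_one (x : ℝ) (k : ℕ) : gm x k 1 = 0 := by
  unfold gm
  simp

lemma gm_zero (x : ℝ) (k : ℕ) : gm x k 0 = x ^ 2 := by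
  unfold gm hh
  simp

lemma gm_le (x : ℝ) (k : ℕ) : ∀ t ∈ Icc (0 : ℝ) 1, gm x k t ≤ hh x t := by
  intro t ht
  unfold gm
  have h1 : 0 ≤ t ^ (k + 1) := pow_nonneg ht.1 _
  have h2 := hh_nonneg x t
  nlinarith

/-- the lower bound for the number variance -/
noncomputable def LL (x : ℝ) : ℝ :=
  2 / Real.pi ^ 2 * ∫ t in (0 : ℝ)..1, Real.sin (Real.pi * x * t) ^ 2 / t

lemma LL_eq {x : ℝ} (hx : x ≠ 0) : LL x = 2 * ∫ t in (0 : ℝ)..1, t * hh x t := by
  unfold LL
  have h : ∀ t : ℝ, t * hh x t = 1 / Real.pi ^ 2 * (Real.sin (Real.pi * x * t) ^ 2 / t) := by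
    intro t
    unfold hh
    by_cases ht : t = 0
    · rw [ht]; simp
    · have h1 : Real.pi * x * t ≠ 0 := mul_ne_zero (mul_ne_zero Real.pi_ne_zero hx) ht
      rw [Real.sinc_of_ne_zero h1]
      have := Real.pi_ne_zero
      field_simp
  simp_rw [h]
  rw [intervalIntegral.integral_const_mul]
  ring

lemma hh_le (x t : ℝ) : hh x t ≤ x ^ 2 := by
  unfold hh
  have h1 : Real.sinc (Real.pi * x * t) ^ 2 ≤ 1 := by
    have h2 := Real.abs_sinc_le_one (Real.pi * x * t)
    rw [← sq_abs]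
    nlinarith [abs_nonneg (Real.sinc (Real.pi * x * t))]
  have h3 := sq_nonneg x
  nlinarith

lemma int_gm (x : ℝ) (hx : x ≠ 0) (k : ℕ) :
    LL x - 2 * x ^ 2 / (k + 3) ≤ 2 * ∫ t in (0 : ℝ)..1, t * gm x k t := by
  rw [LL_eq hx]
  have h1 : ∫ t in (0 : ℝ)..1, (t * hh x t - x ^ 2 * t ^ (k + 2)) ≤
      ∫ t in (0 : ℝ)..1, t * gm x k t := by
    have hc := hh_cont x
    have hg := (gm_cd x k).continuous
    apply intervalIntegral.integral_mono_on (by norm_num)
    · exact Continuous.intervalIntegrable (by fun_prop) _ _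
    · exact Continuous.intervalIntegrable (by fun_prop) _ _
    · intro t ht
      unfold gm
      have h2 : 0 ≤ t ^ (k + 2) := pow_nonneg ht.1 _
      have h3 := hh_le x t
      have h4 : hh x t * t ^ (k + 2) ≤ x ^ 2 * t ^ (k + 2) := mul_le_mul_of_nonneg_right h3 h2
      have h5 : t * (hh x t * (1 - t ^ (k + 1))) = t * hh x t - hh x t * t ^ (k + 2) := by ring
      rw [h5]
      linarith
  have h6 : ∫ t in (0 : ℝ)..1, (t * hh x t - x ^ 2 * t ^ (k + 2)) =
      (∫ t in (0 : ℝ)..1, t * hh x t) - x ^ 2 / (k + 3) := by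
    have hc := hh_cont x
    rw [intervalIntegral.integral_sub (Continuous.intervalIntegrable (by fun_prop) _ _)
      (Continuous.intervalIntegrable (by fun_prop) _ _), intervalIntegral.integral_const_mul,
      integral_pow]
    have : ((k : ℝ) + 3) ≠ 0 := by positivity
    push_cast
    simp only [one_pow, zero_pow (Nat.succ_ne_zero _), sub_zero]
    congr 1
    rw [mul_one_div]
    congr 1
    ring
  rw [h6] at h1
  have h7 : 2 * x ^ 2 / ((k : ℝ) + 3) = 2 * (x ^ 2 / (k + 3)) := by ring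
  rw [h7]
  linarith

lemma LL_cont : ContinuousOn LL (Ioi 0) := by
  have h1 : Continuous fun y : ℝ => 2 * ∫ t in (0 : ℝ)..1, t * hh y t := by
    apply continuous_const.mul
    apply intervalIntegral.continuous_parametric_intervalIntegral_of_continuous'
    unfold Function.uncurry hh
    have := Real.continuous_sinc
    fun_prop
  refine h1.continuousOn.congr fun x hx => LL_eq (ne_of_gt hx)

/-- choice of the parameters -/
lemma choose {x : ℝ} (hx : 0 < x) {ε : ℝ} (hε : 0 < ε) : ∃ μ : ℝ, 1 / 2 < μ ∧ μ < 1 ∧ ∃ k : ℕ,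
    LL x - ε ≤ 2 * ∫ t in (0 : ℝ)..1, t * gm (μ * x) k t := by
  have hc : ContinuousAt (fun μ : ℝ => LL (μ * x)) 1 := by
    have h1 : ContinuousAt LL (1 * x) := by
      rw [one_mul]
      exact LL_cont.continuousAt (Ioi_mem_nhds hx)
    have h2 : ContinuousAt (fun μ : ℝ => μ * x) 1 := by fun_prop
    exact ContinuousAt.comp (f := fun μ : ℝ => μ * x) (g := LL) h1 h2
  have hev : ∀ᶠ μ in 𝓝[<] (1 : ℝ), LL x - ε / 2 < LL (μ * x) := by
    apply nhdsWithin_le_nhds
    apply continuousAt_const.eventually_lt hc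
    rw [one_mul]
    linarith
  have hev2 : ∀ᶠ μ in 𝓝[<] (1 : ℝ), 1 / 2 < μ := by
    apply nhdsWithin_le_nhds
    exact lt_mem_nhds (by norm_num)
  have hlt : ∀ᶠ s in 𝓝[<] (1 : ℝ), s < 1 := self_mem_nhdsWithin
  obtain ⟨μ, ⟨h1, h2⟩, h3⟩ := ((hev.and hev2).and hlt).exists
  obtain ⟨k, hk⟩ := exists_nat_gt (2 * (μ * x) ^ 2 / (ε / 2))
  refine ⟨μ, h2, h3, k, ?_⟩
  have h4 := int_gm (μ * x) (by positivity) k
  have h5 : 2 * (μ * x) ^ 2 / ((k : ℝ) + 3) ≤ ε / 2 := by
    rw [div_le_iff₀ (by positivity)]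
    rw [div_lt_iff₀ (by positivity)] at hk
    nlinarith
  linarith

end Pool.Agent.H707.NV
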