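import Pool.Agent.H707.NV.Fou
import Pool.Agent.TH873.EW.Fam

/-! Positivity of the pair sums and the lower bound for the tent. -/

open MeasureTheory Filter Topology Set

namespace Pool.Agent.H707.NV

open Pool.Agent.TH873.EW (ct mom)

/-- the Gaussian is an autocorrelation -/
lemma gauss_auto (a b : ℝ) : ∫ s : ℝ, Real.exp (-(s - a) ^ 2 / 2) * Real.exp (-(s - b) ^ 2 / 2) =
    Real.sqrt Real.pi * Real.exp (-(a - b) ^ 2 / 4) := by
  have e : ∀ s : ℝ, Real.exp (-(s - a) ^ 2 / 2) * Real.exp (-(s - b) ^ 2 / 2) =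
      Real.exp (-(a - b) ^ 2 / 4) * (fun v : ℝ => Real.exp (-1 * v ^ 2)) (s - (a + b) / 2) := by
    intro s
    simp only
    rw [← Real.exp_add, ← Real.exp_add]
    congr 1
    ring
  simp_rw [e]
  rw [integral_const_mul, integral_sub_right_eq_self (fun v : ℝ => Real.exp (-1 * v ^ 2)),
    integral_gaussian, div_one, mul_comm]

lemma gauss_int (a b : ℝ) : Integrable fun s : ℝ =>
    Real.exp (-(s - a) ^ 2 / 2) * Real.exp (-(s - b) ^ 2 / 2) := by
  have e : (fun s : ℝ => Real.exp (-(s - a) ^ 2 / 2) * Real.exp (-(s - b) ^ 2 / 2)) =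
      fun s => Real.exp (-(a - b) ^ 2 / 4) *
        (fun v : ℝ => Real.exp (-1 * v ^ 2)) (s - (a + b) / 2) := by
    funext s
    simp only
    rw [← Real.exp_add, ← Real.exp_add]
    congr 1
    ring
  rw [e]
  exact ((integrable_exp_neg_mul_sq one_pos).comp_sub_right _).const_mul _

lemma gauss_pd (B : Finset ℕ) (a c : ℕ → ℝ) :
    0 ≤ ∑ n ∈ B, ∑ m ∈ B, Real.exp (-(a n - a m) ^ 2 / 4) * (c n * c m) := by
  have hs : 0 < Real.sqrt Real.pi := Real.sqrt_pos.2 Real.pi_pos
  have h1 : Real.sqrt Real.pi * ∑ n ∈ B, ∑ m ∈ B, Real.exp (-(a n - a m) ^ 2 / 4) * (c n * c m) =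
      ∫ s : ℝ, (∑ n ∈ B, c n * Real.exp (-(s - a n) ^ 2 / 2)) ^ 2 := by
    have e1 : ∀ s : ℝ, (∑ n ∈ B, c n * Real.exp (-(s - a n) ^ 2 / 2)) ^ 2 =
        ∑ n ∈ B, ∑ m ∈ B, (c n * c m) * (Real.exp (-(s - a n) ^ 2 / 2) *
          Real.exp (-(s - a m) ^ 2 / 2)) := by
      intro s
      rw [sq, Finset.sum_mul_sum]
      apply Finset.sum_congr rfl
      intro n _
      apply Finset.sum_congr rfl
      intro m _
      ring
    simp_rw [e1]
    rw [integral_finsetSum _ fun n _ => integrable_finsetSum _ fun m _ =>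
      (gauss_int _ _).const_mul _, Finset.mul_sum]
    apply Finset.sum_congr rfl
    intro n _
    rw [integral_finsetSum _ fun m _ => (gauss_int _ _).const_mul _, Finset.mul_sum]
    apply Finset.sum_congr rfl
    intro m _
    rw [integral_const_mul, gauss_auto]
    ring
  have h2 : 0 ≤ ∫ s : ℝ, (∑ n ∈ B, c n * Real.exp (-(s - a n) ^ 2 / 2)) ^ 2 :=
    integral_nonneg fun s => sq_nonneg _
  rw [← h1] at h2
  exact nonneg_of_mul_nonneg_right h2 hs

/-- the weighted cosine sum -/
noncomputable def PP (B : Finset ℕ) (a : ℕ → ℝ) (κ α : ℝ) : ℝ :=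
  ∑ n ∈ B, ∑ m ∈ B, Real.exp (-(a n - a m) ^ 2 / 4) *
    Real.cos (2 * Real.pi * (κ * (a n - a m)) * α)

lemma PP_nonneg (B : Finset ℕ) (a : ℕ → ℝ) (κ α : ℝ) : 0 ≤ PP B a κ α := by
  have h1 := gauss_pd B a (fun n => Real.cos (2 * Real.pi * κ * α * a n))
  have h2 := gauss_pd B a (fun n => Real.sin (2 * Real.pi * κ * α * a n))
  have h3 := add_nonneg h1 h2
  refine h3.trans (le_of_eq ?_)
  unfold PP
  rw [← Finset.sum_add_distrib]
  apply Finset.sum_congr rfl
  intro n _
  rw [← Finset.sum_add_distrib]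
  apply Finset.sum_congr rfl
  intro m _
  have e : 2 * Real.pi * (κ * (a n - a m)) * α =
      2 * Real.pi * κ * α * a n - 2 * Real.pi * κ * α * a m := by ring
  rw [e, Real.cos_sub]
  ring

lemma PP_cont (B : Finset ℕ) (a : ℕ → ℝ) (κ : ℝ) : Continuous (PP B a κ) := by
  unfold PP
  fun_prop

lemma PP_neg (B : Finset ℕ) (a : ℕ → ℝ) (κ α : ℝ) : PP B a κ (-α) = PP B a κ α := by
  unfold PP
  apply Finset.sum_congr rfl
  intro n _
  apply Finset.sum_congr rfl
  intro m _
  rw [mul_neg, Real.cos_neg]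

/-- the transform of the tent -/
noncomputable def hh (x α : ℝ) : ℝ := x ^ 2 * Real.sinc (Real.pi * x * α) ^ 2

lemma hh_nonneg (x α : ℝ) : 0 ≤ hh x α := by unfold hh; positivity

lemma hh_cont (x : ℝ) : Continuous (hh x) := by
  unfold hh
  have := Real.continuous_sinc
  fun_prop

lemma hh_neg (x α : ℝ) : hh x (-α) = hh x α := by
  unfold hh
  rw [mul_neg, Real.sinc_neg]

/-- the weighted tent sum is at least the weighted sum of `ct g` for `g ≤ hh` on `[0, 1]` -/
theorem tent_ge {B : Finset ℕ} {a : ℕ → ℝ} {κ x : ℝ} (hx : 0 < x) {g : ℝ → ℝ} (hg : Continuous g)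
    (hgh : ∀ t ∈ Icc (0 : ℝ) 1, g t ≤ hh x t) :
    ∑ n ∈ B, ∑ m ∈ B, Real.exp (-(a n - a m) ^ 2 / 4) * ct g (κ * (a n - a m)) ≤
      ∑ n ∈ B, ∑ m ∈ B, Real.exp (-(a n - a m) ^ 2 / 4) * max 0 (x - |κ * (a n - a m)|) := by
  have hcont : Continuous fun α => hh x α * PP B a κ α := (hh_cont x).mul (PP_cont B a κ)
  -- the right side
  have hterm : ∀ n m : ℕ, Integrable fun α : ℝ => Real.exp (-(a n - a m) ^ 2 / 4) *
      (x ^ 2 * Real.sinc (Real.pi * x * α) ^ 2 *
        Real.cos (2 * Real.pi * (κ * (a n - a m)) * α)) := fun n m =>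
    (tent_fourier hx (κ * (a n - a m))).1.const_mul _
  have hfun : (fun α => hh x α * PP B a κ α) = fun α => ∑ n ∈ B, ∑ m ∈ B,
      Real.exp (-(a n - a m) ^ 2 / 4) * (x ^ 2 * Real.sinc (Real.pi * x * α) ^ 2 *
        Real.cos (2 * Real.pi * (κ * (a n - a m)) * α)) := by
    funext α
    unfold PP hh
    rw [Finset.mul_sum]
    apply Finset.sum_congr rfl
    intro n _
    rw [Finset.mul_sum]
    apply Finset.sum_congr rfl
    intro m _
    ring
  have hint : Integrable fun α => hh x α * PP B a κ α := by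
    rw [hfun]
    exact integrable_finsetSum _ fun n _ => integrable_finsetSum _ fun m _ => hterm n m
  have hR : ∫ α : ℝ, hh x α * PP B a κ α =
      ∑ n ∈ B, ∑ m ∈ B, Real.exp (-(a n - a m) ^ 2 / 4) * max 0 (x - |κ * (a n - a m)|) := by
    rw [hfun, integral_finsetSum _ fun n _ => integrable_finsetSum _ fun m _ => hterm n m]
    apply Finset.sum_congr rfl
    intro n _
    rw [integral_finsetSum _ fun m _ => hterm n m]
    apply Finset.sum_congr rfl
    intro m _
    rw [integral_const_mul, (tent_fourier hx _).2]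
  -- restriction to `[-1, 1]`
  have h1 : ∫ α in (-1 : ℝ)..1, hh x α * PP B a κ α ≤ ∫ α : ℝ, hh x α * PP B a κ α := by
    rw [intervalIntegral.integral_of_le (by norm_num)]
    exact setIntegral_le_integral hint (Filter.Eventually.of_forall fun α =>
      mul_nonneg (hh_nonneg x α) (PP_nonneg B a κ α))
  have h2 : ∫ α in (-1 : ℝ)..1, hh x α * PP B a κ α =
      2 * ∫ α in (0 : ℝ)..1, hh x α * PP B a κ α := by
    rw [← intervalIntegral.integral_add_adjacent_intervals (b := 0)
      (hcont.intervalIntegrable _ _) (hcont.intervalIntegrable _ _)]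
    have h3 : ∫ α in (-1 : ℝ)..0, hh x α * PP B a κ α =
        ∫ α in (0 : ℝ)..1, hh x α * PP B a κ α := by
      have h4 := intervalIntegral.integral_comp_neg (a := (0 : ℝ)) (b := 1)
        (fun α => hh x α * PP B a κ α)
      rw [neg_zero] at h4
      rw [← h4]
      apply intervalIntegral.integral_congr
      intro α _
      simp only [hh_neg, PP_neg]
    rw [h3]
    ring
  -- comparison on `[0, 1]`
  have h5 : ∫ α in (0 : ℝ)..1, g α * PP B a κ α ≤ ∫ α in (0 : ℝ)..1, hh x α * PP B a κ α := by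
    apply intervalIntegral.integral_mono_on (by norm_num)
      ((hg.mul (PP_cont B a κ)).intervalIntegrable _ _) (hcont.intervalIntegrable _ _)
    intro α hα
    exact mul_le_mul_of_nonneg_right (hgh α hα) (PP_nonneg B a κ α)
  have h6 : ∑ n ∈ B, ∑ m ∈ B, Real.exp (-(a n - a m) ^ 2 / 4) * ct g (κ * (a n - a m)) =
      2 * ∫ α in (0 : ℝ)..1, g α * PP B a κ α := by
    have hc : ∀ n m : ℕ, IntervalIntegrable (fun α : ℝ => Real.exp (-(a n - a m) ^ 2 / 4) *
        (g α * Real.cos (2 * Real.pi * (κ * (a n - a m)) * α))) volume 0 1 := fun n m =>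
      Continuous.intervalIntegrable (by fun_prop) _ _
    have e1 : ∀ α : ℝ, g α * PP B a κ α = ∑ n ∈ B, ∑ m ∈ B, Real.exp (-(a n - a m) ^ 2 / 4) *
        (g α * Real.cos (2 * Real.pi * (κ * (a n - a m)) * α)) := by
      intro α
      unfold PP
      rw [Finset.mul_sum]
      apply Finset.sum_congr rfl
      intro n _
      rw [Finset.mul_sum]
      apply Finset.sum_congr rfl
      intro m _
      ring
    simp_rw [e1]
    rw [intervalIntegral.integral_finsetSum fun n _ => ?_]
    · rw [Finset.mul_sum]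
      apply Finset.sum_congr rfl
      intro n _
      rw [intervalIntegral.integral_finsetSum fun m _ => hc n m, Finset.mul_sum]
      apply Finset.sum_congr rfl
      intro m _
      rw [intervalIntegral.integral_const_mul]
      unfold Pool.Agent.TH873.EW.ct
      ring
    · exact Continuous.intervalIntegrable (by fun_prop) _ _
  rw [h6, ← hR]
  linarith

end Pool.Agent.H707.NV
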