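import Pool.Agent.H707.SM.Blk
import Pool.Agent.H707.NV.Min

/-! Moments of the window counts and pair sums. -/

open Filter Topology Set MeasureTheory

namespace Pool.Agent.H707.NV

open SG (ord NZ)
open Pool.Agent.TH873.EW (ct mom XV)
open Pool.Agent.Y747 (Bx mem_Bx)
open Pool.Agent.H707.SM (chi chi_of_mem chi_of_not chi_int integral_chi chi_mul Bx_eq)

/-- the number of ordinates in `(t, t + h]` -/
noncomputable def cn (h t : ℝ) : ℝ := (NZ (t + h) : ℝ) - NZ t

/-- the same for the ordinates of a block -/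
noncomputable def MM (V h t : ℝ) : ℝ := ∑ n ∈ Bx V, chi (ord n - h) (ord n) t

lemma cn_nonneg {h : ℝ} (hh : 0 ≤ h) (t : ℝ) : 0 ≤ cn h t := by
  unfold cn
  have : (NZ t : ℝ) ≤ NZ (t + h) := by exact_mod_cast SG.NZ_mono (by linarith)
  linarith

lemma cn_mono {h h' : ℝ} (hh : h ≤ h') (t : ℝ) : cn h t ≤ cn h' t := by
  unfold cn
  have : (NZ (t + h) : ℝ) ≤ NZ (t + h') := by exact_mod_cast SG.NZ_mono (by linarith)
  linarith

lemma MM_nonneg (V h t : ℝ) : 0 ≤ MM V h t := by
  unfold MM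
  apply Finset.sum_nonneg
  intro n _
  unfold Pool.Agent.H707.SM.chi
  exact indicator_nonneg (fun _ _ => zero_le_one) _

lemma MM_eq (V h t : ℝ) : MM V h t =
    (((Finset.Icc (NZ (V + 1) + 1) (NZ (2 * V - 1))).filter
      (fun n => NZ t < n ∧ n ≤ NZ (t + h))).card : ℝ) := by
  unfold MM
  rw [Finset.card_filter, Bx_eq]
  push_cast
  apply Finset.sum_congr rfl
  intro n hn
  rw [Finset.mem_Icc] at hn
  have hn1 : 1 ≤ n := by omega
  have a1 : ord n ≤ t + h ↔ n ≤ NZ (t + h) := SG.ord_le_iff hn1 _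
  have a2 : ord n ≤ t ↔ n ≤ NZ t := SG.ord_le_iff hn1 _
  split_ifs with hc
  · apply chi_of_mem
    · have := a1.2 hc.2
      linarith
    · by_contra h3
      rw [not_lt] at h3
      have := a2.1 h3
      omega
  · apply chi_of_not
    rintro ⟨h3, h4⟩
    apply hc
    constructor
    · by_contra h5
      rw [not_lt] at h5
      have := a2.2 h5
      linarith
    · exact a1.1 (by linarith)

lemma MM_le {V h t : ℝ} (hh : 0 ≤ h) : MM V h t ≤ cn h t := by
  rw [MM_eq]
  unfold cn
  have hsub : (Finset.Icc (NZ (V + 1) + 1) (NZ (2 * V - 1))).filter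
      (fun n => NZ t < n ∧ n ≤ NZ (t + h)) ⊆ Finset.Ioc (NZ t) (NZ (t + h)) := by
    intro n hn
    rw [Finset.mem_filter] at hn
    rw [Finset.mem_Ioc]
    exact hn.2
  have h1 := Finset.card_le_card hsub
  rw [Nat.card_Ioc] at h1
  have h2 : NZ t ≤ NZ (t + h) := SG.NZ_mono (by linarith)
  have h3 : ((NZ (t + h) - NZ t : ℕ) : ℝ) = (NZ (t + h) : ℝ) - NZ t := by
    rw [Nat.cast_sub h2]
  rw [← h3]
  exact_mod_cast h1

lemma MM_eq_cn {V h t : ℝ} (hh : 0 ≤ h) (h1 : V + 1 ≤ t) (h2 : t + h ≤ 2 * V - 1) :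
    MM V h t = cn h t := by
  rw [MM_eq]
  unfold cn
  have m1 : NZ (V + 1) ≤ NZ t := SG.NZ_mono h1
  have m2 : NZ (t + h) ≤ NZ (2 * V - 1) := SG.NZ_mono h2
  have m3 : NZ t ≤ NZ (t + h) := SG.NZ_mono (by linarith)
  have hset : (Finset.Icc (NZ (V + 1) + 1) (NZ (2 * V - 1))).filter
      (fun n => NZ t < n ∧ n ≤ NZ (t + h)) = Finset.Ioc (NZ t) (NZ (t + h)) := by
    ext n
    rw [Finset.mem_filter, Finset.mem_Icc, Finset.mem_Ioc]
    omega
  rw [hset, Nat.card_Ioc, Nat.cast_sub m3]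

/-- the support of the count of a block -/
lemma MM_supp {V h t : ℝ} (hh1 : h ≤ 1) (ht : ¬ (V < t ∧ t ≤ 2 * V)) : MM V h t = 0 := by
  unfold MM
  apply Finset.sum_eq_zero
  intro n hn
  rw [mem_Bx] at hn
  apply chi_of_not
  rintro ⟨h3, h4⟩
  apply ht
  constructor <;> linarith

lemma MM_int (V h : ℝ) : Integrable (MM V h) := by
  unfold MM
  exact integrable_finsetSum _ fun n _ => chi_int _ _

lemma MM_sq (V h t : ℝ) : MM V h t ^ 2 = ∑ n ∈ Bx V, ∑ k ∈ Bx V,
    chi (max (ord n - h) (ord k - h)) (min (ord n) (ord k)) t := by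
  unfold MM
  rw [sq, Finset.sum_mul_sum]
  apply Finset.sum_congr rfl
  intro n _
  apply Finset.sum_congr rfl
  intro k _
  rw [chi_mul]

lemma MM_sq_int (V h : ℝ) : Integrable (fun t => MM V h t ^ 2) := by
  simp_rw [MM_sq]
  exact integrable_finsetSum _ fun n _ => integrable_finsetSum _ fun k _ => chi_int _ _

lemma int_MM {V h : ℝ} (hh : 0 ≤ h) : ∫ t, MM V h t = h * (Bx V).card := by
  unfold MM
  rw [integral_finsetSum _ fun n _ => chi_int _ _]
  have : ∀ n ∈ Bx V, ∫ t, chi (ord n - h) (ord n) t = h := by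
    intro n _
    rw [integral_chi, max_eq_right (by linarith)]
    ring
  rw [Finset.sum_congr rfl this, Finset.sum_const, nsmul_eq_mul]
  ring

lemma int_MM_sq (V h : ℝ) : ∫ t, MM V h t ^ 2 =
    ∑ n ∈ Bx V, ∑ k ∈ Bx V, max 0 (h - |ord n - ord k|) := by
  simp_rw [MM_sq]
  rw [integral_finsetSum _ fun n _ => integrable_finsetSum _ fun k _ => chi_int _ _]
  apply Finset.sum_congr rfl
  intro n _
  rw [integral_finsetSum _ fun k _ => chi_int _ _]
  apply Finset.sum_congr rfl
  intro k _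
  rw [integral_chi]
  congr 1
  rcases le_total (ord n) (ord k) with h1 | h1
  · rw [min_eq_left h1, max_eq_right (by linarith), abs_of_nonpos (by linarith)]
    ring
  · rw [min_eq_right h1, max_eq_left (by linarith), abs_of_nonneg (by linarith)]
    ring

/-- integrability of the counts -/
lemma cn_meas (h : ℝ) : Measurable (cn h) := by
  unfold cn
  have h1 : Measurable fun t : ℝ => (NZ t : ℝ) := by
    apply Monotone.measurable
    intro a b hab
    have := SG.NZ_mono hab
    simp only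
    exact_mod_cast this
  exact (h1.comp (measurable_id.add_const h)).sub h1

lemma cn_bdd {h : ℝ} {a b t : ℝ} (ht : t ∈ Icc a b) : cn h t ≤ NZ (b + h) := by
  unfold cn
  have h1 : (NZ (t + h) : ℝ) ≤ NZ (b + h) := by exact_mod_cast SG.NZ_mono (by linarith [ht.2])
  have h2 : (0 : ℝ) ≤ NZ t := Nat.cast_nonneg _
  linarith

lemma cn_pow_ii {h : ℝ} (hh : 0 ≤ h) (j : ℕ) {a b : ℝ} (hab : a ≤ b) :
    IntervalIntegrable (fun t => cn h t ^ j) volume a b := by
  rw [intervalIntegrable_iff_integrableOn_Icc_of_le hab]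
  apply Measure.integrableOn_of_bounded (M := (NZ (b + h) : ℝ) ^ j)
  · rw [Real.volume_Icc]; exact ENNReal.ofReal_ne_top
  · exact ((cn_meas h).pow_const j).aestronglyMeasurable
  · rw [ae_restrict_iff' measurableSet_Icc]
    apply Filter.Eventually.of_forall
    intro t ht
    rw [Real.norm_eq_abs, abs_of_nonneg (pow_nonneg (cn_nonneg hh t) j)]
    exact pow_le_pow_left₀ (cn_nonneg hh t) (cn_bdd ht) j

/-- lower bound for the moments of the counts -/
lemma low {V h : ℝ} (hV : 0 ≤ V) (hh : 0 ≤ h) (hh1 : h ≤ 1) {j : ℕ} (hj : 1 ≤ j)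
    (hi : Integrable (fun t => MM V h t ^ j)) :
    ∫ t, MM V h t ^ j ≤ ∫ t in V..(2 * V), cn h t ^ j := by
  have h1 : ∫ t, MM V h t ^ j = ∫ t in V..(2 * V), MM V h t ^ j := by
    rw [intervalIntegral.integral_of_le (by linarith)]
    symm
    apply setIntegral_eq_integral_of_forall_compl_eq_zero
    intro t ht
    rw [mem_Ioc] at ht
    rw [MM_supp hh1 ht, zero_pow (by omega)]
  rw [h1]
  apply intervalIntegral.integral_mono_on (by linarith) hi.intervalIntegrable
    (cn_pow_ii hh j (by linarith))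
  intro t _
  exact pow_le_pow_left₀ (MM_nonneg V h t) (MM_le hh) j

/-- upper bound for the moments of the counts -/
lemma upp {V h K : ℝ} (hV : 4 ≤ V) (hh : 0 ≤ h) (hh1 : h ≤ 1) {j : ℕ}
    (hi : Integrable (fun t => MM V h t ^ j)) (hK : ∀ t ∈ Icc V (2 * V), cn h t ≤ K) :
    ∫ t in V..(2 * V), cn h t ^ j ≤ (∫ t, MM V h t ^ j) + 3 * K ^ j := by
  have i1 := cn_pow_ii hh j (a := V) (b := V + 1) (by linarith)
  have i2 := cn_pow_ii hh j (a := V + 1) (b := 2 * V - 1 - h) (by linarith)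
  have i3 := cn_pow_ii hh j (a := 2 * V - 1 - h) (b := 2 * V) (by linarith)
  have hK0 : 0 ≤ K := (cn_nonneg hh V).trans (hK V ⟨le_rfl, by linarith⟩)
  have e1 := intervalIntegral.integral_add_adjacent_intervals i1 i2
  have e2 := intervalIntegral.integral_add_adjacent_intervals (i1.trans i2) i3
  rw [← e2, ← e1]
  have b1 : ∫ t in V..(V + 1), cn h t ^ j ≤ K ^ j := by
    have : ∫ t in V..(V + 1), cn h t ^ j ≤ ∫ t in V..(V + 1), K ^ j := by
      apply intervalIntegral.integral_mono_on (by linarith) i1 intervalIntegrable_const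
      intro t ht
      exact pow_le_pow_left₀ (cn_nonneg hh t) (hK t ⟨ht.1, by linarith [ht.2]⟩) j
    rw [intervalIntegral.integral_const, smul_eq_mul] at this
    linarith
  have b3 : ∫ t in (2 * V - 1 - h)..(2 * V), cn h t ^ j ≤ 2 * K ^ j := by
    have : ∫ t in (2 * V - 1 - h)..(2 * V), cn h t ^ j ≤
        ∫ t in (2 * V - 1 - h)..(2 * V), K ^ j := by
      apply intervalIntegral.integral_mono_on (by linarith) i3 intervalIntegrable_const
      intro t ht
      exact pow_le_pow_left₀ (cn_nonneg hh t) (hK t ⟨by linarith [ht.1], ht.2⟩) j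
    rw [intervalIntegral.integral_const, smul_eq_mul] at this
    have h4 : (2 * V - (2 * V - 1 - h)) * K ^ j ≤ 2 * K ^ j := by
      apply mul_le_mul_of_nonneg_right _ (pow_nonneg hK0 j)
      linarith
    linarith
  have b2 : ∫ t in (V + 1)..(2 * V - 1 - h), cn h t ^ j ≤ ∫ t, MM V h t ^ j := by
    have h5 : ∫ t in (V + 1)..(2 * V - 1 - h), cn h t ^ j =
        ∫ t in (V + 1)..(2 * V - 1 - h), MM V h t ^ j := by
      apply intervalIntegral.integral_congr
      intro t ht
      rw [Set.uIcc_of_le (by linarith)] at ht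
      simp only
      rw [MM_eq_cn hh ht.1 (by linarith [ht.2])]
    rw [h5, intervalIntegral.integral_of_le (by linarith)]
    exact setIntegral_le_integral hi (Filter.Eventually.of_forall fun t =>
      pow_nonneg (MM_nonneg V h t) j)
  linarith

end Pool.Agent.H707.NV
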